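import Pool.Agent.Lib_MP_33f7bb_an.MAIN

/-!
# MP_33f7bb_an: sofic mean dimension and stable cohomotopy dimension

If the stable cohomotopy dimension of a compact metric space `X` is at most `c`, then the
`ε`-width dimension of `X ^ n` is at most `c n + C(ε)`; hence the sofic mean dimension of every
action on `X`, of every group, is at most `c`, and if moreover `X` is infinite dimensional, then the
statement in Q1 is false.
-/

open Set Filter Topology

namespace Pool.Agent.Results.MP_33f7bb_an.StableCohomotopy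

theorem result (X : Type) [MetricSpace X] [CompactSpace X] (c : ℕ) (h : SMD.StableDimLE X c) :
    (∀ ε : ℝ, 0 < ε → ∃ C : ℕ, ∀ (n : ℕ) (Z : Set (Fin n → X)), SMD.WidimLE ε Z (c * n + C)) ∧
    (∀ (G : Type) [Group G] [MulAction G X] (S : SMD.SoficSeq G), SMD.mdim X G S ≤ (c : EReal)) ∧
    ((∀ n, ¬ SMD.CovDimLE X n) → ¬ SMD.Q1) := by
  refine ⟨fun ε hε => ?_, fun G _ _ S => SMD.mdim_le h G S, fun hX => SMD.not_Q1 h hX⟩
  obtain ⟨M, f, hf, hL, hf'⟩ := SMD.exists_embedding (X := X) hε
  obtain ⟨k, hk⟩ := SMD.goodS_of_good hf (SMD.good_Sk (SMD.PT_of_SI (SMD.SI_of_stableDim h)) hf hL)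
  refine ⟨M * (k + 1), fun n Z => ?_⟩
  exact SMD.widimLE_of_PM hε (SMD.PM_pow hε f hL hf' hk n) Z

end Pool.Agent.Results.MP_33f7bb_an.StableCohomotopy
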